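import Mathlib

/-!
# MP_435f72_co: a string of length `n` can have quadratically many classes of parameterized squares

For every `L` there is a string of length `n = 6 L` (over the alphabet `Fin (6 L)`) whose
parameterized squares, the ordinary squares excluded, fall into at least `L (L + 1)` classes of
parameterized equivalence. For `L ≥ 5` this is at least `n`, so the inequality `PS(s) < n` fails, and
neither `PS` nor `PS'` is bounded by a constant times `n`.

The string: with `K = 2 L`, the letter at position `p < 6 L` is `j` if `p = K + 2 j` and it is `p`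
itself otherwise. Equal letters sit at the positions `j` and `K + 2 j`, whose distances `K + j` are at
least `K` and pairwise different. So windows of length at most `K` have distinct letters, which makes
every factor of length `2 k ≤ 2 K` a parameterized square, and the pairs of equal letters inside such a
factor determine its position.
-/

set_option autoImplicit false

namespace Pool.Agent.Results.MP_435f72_co.QuadraticallyMany

/-- Parameterized equivalence `x ≈ y` of two strings over the alphabet `A`: some bijection of the
alphabet carries `x` to `y` letter by letter. -/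
def PEquiv {A : Type} (x y : List A) : Prop := ∃ f : Equiv.Perm A, x.map f = y

theorem pequiv_equivalence (A : Type) : Equivalence (@PEquiv A) where
  refl x := ⟨1, by simp⟩
  symm := by
    rintro x y ⟨f, rfl⟩
    exact ⟨f⁻¹, by simp [List.map_map, Function.comp_def]⟩
  trans := by
    rintro x y z ⟨f, rfl⟩ ⟨g, rfl⟩
    exact ⟨g * f, by simp [List.map_map, Function.comp_def]⟩

/-- The strings over `A` up to parameterized equivalence. -/
def classes (A : Type) : Setoid (List A) := ⟨PEquiv, pequiv_equivalence A⟩

/-- `w` is a parameterized square: non-empty and of the form `x y` with `x ≈ y`. -/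
def IsPSquare {A : Type} (w : List A) : Prop :=
  w ≠ [] ∧ ∃ x y : List A, w = x ++ y ∧ PEquiv x y

/-- `w` is a parameterized square but not an ordinary square. -/
def IsPSquare' {A : Type} (w : List A) : Prop :=
  w ≠ [] ∧ ∃ x y : List A, w = x ++ y ∧ PEquiv x y ∧ x ≠ y

/-- `PS(s)`: the number of classes of the parameterized squares that are factors of `s`. -/
noncomputable def PS {A : Type} (s : List A) : ℕ :=
  Set.ncard ((fun w => Quotient.mk (classes A) w) '' {w | w <:+: s ∧ IsPSquare w})

/-- `PS'(s)`: the same count with the ordinary squares excluded. -/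
noncomputable def PS' {A : Type} (s : List A) : ℕ :=
  Set.ncard ((fun w => Quotient.mk (classes A) w) '' {w | w <:+: s ∧ IsPSquare' w})

theorem finite_infix {A : Type} (s : List A) (P : List A → Prop) :
    {w | w <:+: s ∧ P w}.Finite := by
  have : {w | w <:+: s}.Finite := by
    refine (List.finite_toSet (s.sublists)).subset ?_
    intro w hw
    simpa using List.IsInfix.sublist hw
  exact this.subset fun w hw => hw.1

theorem ps'_le_ps {A : Type} (s : List A) : PS' s ≤ PS s := by
  refine Set.ncard_le_ncard (Set.image_mono ?_) ((finite_infix s _).image _)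
  rintro w ⟨h1, h2, x, y, h3, h4, -⟩
  exact ⟨h1, h2, x, y, h3, h4⟩

/-- Two duplicate-free strings of the same length are parameterized equivalent. -/
theorem pequiv_of_nodup {A : Type} {x y : List A} (hx : x.Nodup) (hy : y.Nodup)
    (h : x.length = y.length) : PEquiv x y := by
  obtain ⟨σ, hσ⟩ := Equiv.Perm.exists_extending_pair (fun i : Fin x.length => x.get i)
    (fun i : Fin x.length => y.get (i.cast h)) (List.nodup_iff_injective_get.1 hx)
    (fun a b hab => by
      have := List.nodup_iff_injective_get.1 hy hab
      simpa [Fin.ext_iff] using this)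
  refine ⟨σ, List.ext_getElem (by simpa using h) ?_⟩
  intro i h1 h2
  have := hσ ⟨i, by simpa using h1⟩
  simpa using this

/-- The position whose letter is used at position `p`. -/
def ell (K p : ℕ) : ℕ := if K ≤ p ∧ (p - K) % 2 = 0 then (p - K) / 2 else p

theorem ell_eq {K p q : ℕ} (hpq : p < q) (hq : q < 3 * K) (h : ell K p = ell K q) :
    q = K + 2 * p := by
  unfold ell at h
  split_ifs at h <;> omega

theorem ell_pair {K p : ℕ} : ell K (K + 2 * p) = p := by
  unfold ell
  split_ifs <;> omega

theorem ell_small {K p : ℕ} (hp : p < K) : ell K p = p := by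
  unfold ell
  split_ifs <;> omega

theorem ell_lt {K p : ℕ} (hp : p < 3 * K) : ell K p < 3 * K := by
  unfold ell
  split_ifs <;> omega

/-- The string. -/
def str (L : ℕ) : List (Fin (6 * L)) :=
  List.ofFn fun p : Fin (6 * L) => ⟨ell (2 * L) p, by
    have := ell_lt (K := 2 * L) (p := p) (by omega)
    omega⟩

theorem str_length (L : ℕ) : (str L).length = 6 * L := by simp [str]

/-- The factor of length `m` at position `i`. -/
def win (L i m : ℕ) : List (Fin (6 * L)) := ((str L).drop i).take m

theorem win_length {L i m : ℕ} (h : i + m ≤ 6 * L) : (win L i m).length = m := by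
  simp [win, str_length]
  omega

theorem win_get {L i m t : ℕ} (h : t < (win L i m).length) :
    ((win L i m)[t] : ℕ) = ell (2 * L) (i + t) := by
  simp [win, str]

theorem win_nodup {L i m : ℕ} (hm : m ≤ 2 * L) : (win L i m).Nodup := by
  rw [List.nodup_iff_injective_get]
  intro a b hab
  by_contra hne
  have hlen : ∀ t : Fin (win L i m).length, i + (t : ℕ) < 6 * L ∧ (t : ℕ) < m := by
    intro t
    have := t.2
    simp only [win, List.length_take, List.length_drop, str_length] at this
    omega
  have key : ∀ a b : Fin (win L i m).length, (win L i m).get a = (win L i m).get b →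
      (a : ℕ) < b → False := by
    intro a b hab hlt
    have h1 : ell (2 * L) (i + a) = ell (2 * L) (i + b) := by
      rw [← win_get a.2, ← win_get b.2]
      exact congrArg _ hab
    have h2 := ell_eq (K := 2 * L) (by omega : i + (a : ℕ) < i + b)
      (by have := hlen b; omega) h1
    have := hlen b
    omega
  rcases lt_trichotomy (a : ℕ) b with h | h | h
  · exact key a b hab h
  · exact hne (Fin.ext h)
  · exact key b a hab.symm h

theorem win_split (L i k : ℕ) : win L i (2 * k) = win L i k ++ win L (i + k) k := by
  rw [two_mul, win, List.take_add, List.drop_drop]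
  rfl

theorem win_infix (L i m : ℕ) : win L i m <:+: str L :=
  (List.take_prefix _ _).isInfix.trans (List.drop_suffix _ _).isInfix

/-- The index set of the factors that are counted. -/
def idx (L : ℕ) : Finset (Σ _ : ℕ, ℕ) :=
  (Finset.Ioc L (2 * L)).sigma fun k => Finset.range (2 * (k - L))

theorem idx_card (L : ℕ) : (idx L).card = L * (L + 1) := by
  rw [idx, Finset.card_sigma]
  simp only [Finset.card_range]
  have h : ∀ M : ℕ, ∑ k ∈ Finset.Ioc L (L + M), 2 * (k - L) = M * (M + 1) := by
    intro M
    induction M with
    | zero => simp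
    | succ M ih =>
      rw [← Nat.add_assoc, Finset.sum_Ioc_succ_top (by omega), ih]
      have : L + M + 1 - L = M + 1 := by omega
      rw [this]
      ring
  rw [two_mul, h L]

theorem counted {L k i : ℕ} (h : (⟨k, i⟩ : Σ _ : ℕ, ℕ) ∈ idx L) :
    L < k ∧ k ≤ 2 * L ∧ i < 2 * (k - L) := by
  simp only [idx, Finset.mem_sigma, Finset.mem_Ioc, Finset.mem_range] at h
  omega

theorem win_isPSquare' {L k i : ℕ} (h : (⟨k, i⟩ : Σ _ : ℕ, ℕ) ∈ idx L) :
    IsPSquare' (win L i (2 * k)) := by
  obtain ⟨h1, h2, h3⟩ := counted h
  refine ⟨?_, win L i k, win L (i + k) k, win_split L i k, ?_, ?_⟩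
  · intro h0
    have := win_length (L := L) (i := i) (m := 2 * k) (by omega)
    rw [h0] at this
    simp at this
    omega
  · refine pequiv_of_nodup (win_nodup h2) (win_nodup h2) ?_
    rw [win_length (by omega), win_length (by omega)]
  · intro heq
    have e1 := win_length (L := L) (i := i) (m := k) (by omega)
    have e2 := win_length (L := L) (i := i + k) (m := k) (by omega)
    have hz : ∀ t, t < k → ell (2 * L) (i + t) = ell (2 * L) (i + k + t) := by
      intro t ht
      rw [← win_get (L := L) (i := i) (m := k) (t := t) (by omega),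
        ← win_get (L := L) (i := i + k) (m := k) (t := t) (by omega)]
      simp [heq]
    have a0 := ell_eq (K := 2 * L) (by omega : i + 0 < i + k + 0) (by omega) (hz 0 (by omega))
    have a1 := ell_eq (K := 2 * L) (by omega : i + 1 < i + k + 1) (by omega) (hz 1 (by omega))
    omega

theorem win_injOn {L k i k' i' : ℕ} (h : (⟨k, i⟩ : Σ _ : ℕ, ℕ) ∈ idx L)
    (h' : (⟨k', i'⟩ : Σ _ : ℕ, ℕ) ∈ idx L) (he : PEquiv (win L i (2 * k)) (win L i' (2 * k'))) :
    k = k' ∧ i = i' := by
  obtain ⟨h1, h2, h3⟩ := counted h
  obtain ⟨h1', h2', h3'⟩ := counted h'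
  have e1 := win_length (L := L) (i := i) (m := 2 * k) (by omega)
  have e2 := win_length (L := L) (i := i') (m := 2 * k') (by omega)
  obtain ⟨f, hf⟩ := he
  have hk : k = k' := by
    have := congrArg List.length hf
    rw [List.length_map, e1, e2] at this
    omega
  subst hk
  refine ⟨rfl, ?_⟩
  -- the letters at `i` and `2 L + 2 i` are equal
  have hg : ∀ t (ht : t < 2 * k), (win L i' (2 * k))[t]'(by omega) =
      f ((win L i (2 * k))[t]'(by omega)) := by
    intro t ht
    simp [← hf]
  have hL : (win L i (2 * k))[0]'(by omega) = (win L i (2 * k))[2 * L + i]'(by omega) := by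
    apply Fin.ext
    rw [win_get, win_get]
    have : i + (2 * L + i) = 2 * L + 2 * i := by ring
    rw [this, ell_pair, ell_small (by omega)]
    rfl
  have hR : (win L i' (2 * k))[0]'(by omega) = (win L i' (2 * k))[2 * L + i]'(by omega) := by
    rw [hg 0 (by omega), hg (2 * L + i) (by omega), hL]
  have hR' := congrArg Fin.val hR
  rw [win_get, win_get] at hR'
  have := ell_eq (K := 2 * L) (by omega : i' + 0 < i' + (2 * L + i)) (by omega) hR'
  omega

/-- For every `L` there is a string of length `n = 6 L` whose parameterized squares that are not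
ordinary squares fall into at least `L (L + 1)` classes of parameterized equivalence; in particular
`PS(s) ≥ PS'(s) ≥ n ^ 2 / 36`, and `PS(s) ≥ n` for `n = 30`. -/
theorem result : ∀ L : ℕ, ∃ s : List (Fin (6 * L)),
    s.length = 6 * L ∧ L * (L + 1) ≤ PS' s ∧ PS' s ≤ PS s := by
  intro L
  refine ⟨str L, str_length L, ?_, ps'_le_ps _⟩
  rw [← idx_card L, ← Set.ncard_coe_finset]
  refine Set.ncard_le_ncard_of_injOn
    (fun p => Quotient.mk (classes (Fin (6 * L))) (win L p.2 (2 * p.1))) ?_ ?_
    ((finite_infix _ _).image _)
  · rintro ⟨k, i⟩ hp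
    exact ⟨_, ⟨win_infix _ _ _, win_isPSquare' (by simpa using hp)⟩, rfl⟩
  · rintro ⟨k, i⟩ hp ⟨k', i'⟩ hp' he
    obtain ⟨rfl, rfl⟩ := win_injOn (by simpa using hp) (by simpa using hp') (Quotient.exact he)
    rfl

end Pool.Agent.Results.MP_435f72_co.QuadraticallyMany
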